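import Mathlib
import Pool.Agent.H68R2.BP.Props2

open scoped ComplexOrder InnerProductSpace ComplexConjugate Topology
open Finset Filter

noncomputable section

namespace H68R2.BP

open H759R2.Kad H744R2.KZ

set_option linter.unusedSectionVars false

namespace SFinaux

theorem pow_trick (a μ K : ℝ) (_ : 0 ≤ a) (hμ : 0 ≤ μ)
    (h : ∀ m : ℕ, a ^ (2 ^ (m + 1)) ≤ K * μ ^ (2 ^ (m + 1))) : a ≤ μ := by
  by_contra hcon
  push Not at hcon
  rcases hμ.eq_or_lt with h0 | h0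
  · have := h 0
    rw [← h0] at this
    norm_num at this
    rw [← h0] at hcon
    have h1 : a = 0 := by
      by_contra hne
      have := pow_pos hcon 2
      linarith
    linarith
  · have ht : 1 < a / μ := by rwa [one_lt_div h0]
    obtain ⟨N, hN⟩ := pow_unbounded_of_one_lt K ht
    have h1 : (a / μ) ^ N ≤ (a / μ) ^ (2 ^ (N + 1)) := by
      apply pow_le_pow_right₀ ht.le
      have : N + 1 < 2 ^ (N + 1) := Nat.lt_two_pow_self
      omega
    have h2 := h N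
    have h3 : (a / μ) ^ (2 ^ (N + 1)) ≤ K := by
      rw [div_pow, div_le_iff₀ (by positivity)]
      exact h2
    linarith

section

variable {H : Type} [NormedAddCommGroup H] [InnerProductSpace ℂ H] [CompleteSpace H]
variable {L : Type} [NormedAddCommGroup L] [InnerProductSpace ℂ L] [CompleteSpace L]

theorem mulTT {A : Set (H →L[ℂ] H)} {l r : (H →L[ℂ] H) → (L →L[ℂ] L)} (hA : BiRep A l r)
    {I J : Type} [Fintype I] [Fintype J] (x : I → (H →L[ℂ] H)) (y : J → (H →L[ℂ] H))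
    (hx : ∀ i, x i ∈ A) (hy : ∀ i, y i ∈ A) :
    TT l r (fun t : I × J => x t.1 * y t.2) = TT l r x * TT l r y := by
  unfold TT
  rw [Fintype.sum_prod_type, Finset.sum_mul]
  apply Finset.sum_congr rfl
  intro i _
  rw [Finset.mul_sum]
  apply Finset.sum_congr rfl
  intro j _
  simp only
  rw [hA.l_mul _ (hx i) _ (hy j), hA.r_mul _ (hx i) _ (hy j)]
  rw [mul_assoc, mul_assoc, ← mul_assoc (l (y j)), hA.comm _ (hy j) _ (hx i), mul_assoc]

theorem starTT {A : Set (H →L[ℂ] H)} {l r : (H →L[ℂ] H) → (L →L[ℂ] L)} (hA : BiRep A l r)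
    (hst : ∀ a ∈ A, star a ∈ A)
    {I : Type} [Fintype I] (x : I → (H →L[ℂ] H)) (hx : ∀ i, x i ∈ A) :
    TT l r (fun i => star (x i)) = star (TT l r x) := by
  unfold TT
  rw [star_sum]
  apply Finset.sum_congr rfl
  intro i _
  rw [star_mul, ← hA.r_star _ (hx i), ← hA.l_star _ (hx i),
    hA.comm _ (hst _ (hx i)) _ (hst _ (hx i))]

/-- the words -/
theorem words {L' : Type} [NormedAddCommGroup L'] [InnerProductSpace ℂ L'] [CompleteSpace L']
    {A : Set (H →L[ℂ] H)} {l r : (H →L[ℂ] H) → (L →L[ℂ] L)}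
    {l' r' : (H →L[ℂ] H) → (L' →L[ℂ] L')} (hA : BiRep A l r) (hA' : BiRep A l' r')
    (hst : ∀ a ∈ A, star a ∈ A) (hmul : ∀ a ∈ A, ∀ b ∈ A, a * b ∈ A)
    {I : Type} [Fintype I] (x : I → (H →L[ℂ] H)) (hx : ∀ i, x i ∈ A) (m : ℕ) :
    ∃ (J : Type) (_ : Fintype J) (y : J → (H →L[ℂ] H)), (∀ i, y i ∈ A) ∧
      TT l r y = (star (TT l r x) * TT l r x) ^ (2 ^ m) ∧
      TT l' r' y = (star (TT l' r' x) * TT l' r' x) ^ (2 ^ m) := by
  induction m with
  | zero =>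
    refine ⟨I × I, inferInstance, fun t => star (x t.1) * x t.2,
      fun t => hmul _ (hst _ (hx _)) _ (hx _), ?_, ?_⟩
    · rw [pow_zero, pow_one, ← starTT hA hst x hx]
      exact mulTT hA (fun i => star (x i)) x (fun i => hst _ (hx i)) hx
    · rw [pow_zero, pow_one, ← starTT hA' hst x hx]
      exact mulTT hA' (fun i => star (x i)) x (fun i => hst _ (hx i)) hx
  | succ m ih =>
    obtain ⟨J, hJ, y, hy, e1, e2⟩ := ih
    refine ⟨J × J, inferInstance, fun t => y t.1 * y t.2, fun t => hmul _ (hy _) _ (hy _), ?_, ?_⟩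
    · rw [mulTT hA y y hy hy, e1, pow_succ 2 m, mul_two, pow_add]
    · rw [mulTT hA' y y hy hy, e2, pow_succ 2 m, mul_two, pow_add]

/-- iterated Cauchy-Schwarz -/
theorem cs (T : L →L[ℂ] L) (w : L) (hw : ‖w‖ = 1) (m : ℕ) :
    ‖⟪w, T w⟫_ℂ‖ ^ (2 ^ (m + 1)) ≤ (⟪w, ((star T * T) ^ (2 ^ m)) w⟫_ℂ).re := by
  have hsa : ∀ j : ℕ, star ((star T * T) ^ j) = (star T * T) ^ j := by
    intro j
    rw [star_pow, star_mul, star_star]
  have sq : ∀ (a : L →L[ℂ] L), ‖a w‖ ^ 2 = (⟪w, (star a * a) w⟫_ℂ).re := by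
    intro a
    have h := ContinuousLinearMap.apply_norm_sq_eq_inner_adjoint_right a w
    rw [ContinuousLinearMap.star_eq_adjoint]
    exact h
  induction m with
  | zero =>
    have e0 : (star T * T) ^ (2 ^ 0) = star T * T := by rw [pow_zero, pow_one]
    rw [e0, ← sq]
    have h1 : ‖⟪w, T w⟫_ℂ‖ ≤ ‖T w‖ := by
      have := norm_inner_le_norm (𝕜 := ℂ) w (T w)
      rwa [hw, one_mul] at this
    simpa using pow_le_pow_left₀ (norm_nonneg _) h1 2
  | succ m ih =>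
    have h1 : ‖⟪w, T w⟫_ℂ‖ ^ (2 ^ (m + 1 + 1)) = (‖⟪w, T w⟫_ℂ‖ ^ (2 ^ (m + 1))) ^ 2 := by
      rw [← pow_mul, ← pow_succ]
    have h2 : (star T * T) ^ (2 ^ (m + 1)) =
        star ((star T * T) ^ (2 ^ m)) * (star T * T) ^ (2 ^ m) := by
      rw [hsa, ← pow_add, ← mul_two, ← pow_succ]
    rw [h1, h2, ← sq]
    have h3 : (⟪w, ((star T * T) ^ (2 ^ m)) w⟫_ℂ).re ≤ ‖((star T * T) ^ (2 ^ m)) w‖ := by
      have := norm_inner_le_norm (𝕜 := ℂ) w (((star T * T) ^ (2 ^ m)) w)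
      rw [hw, one_mul] at this
      exact (Complex.re_le_norm _).trans this
    exact pow_le_pow_left₀ (by positivity) (ih.trans h3) 2

theorem minBi {κ : Type} {b : HilbertBasis κ ℂ H} {l r : (H →L[ℂ] H) → (L →L[ℂ] L)}
    {th : κ → κ → L} (h : MinRep b l r th) (A : Set (H →L[ℂ] H)) : BiRep A l r where
  l_add := h.l_add
  l_smul := h.l_smul
  l_mul x _ y _ := h.l_mul x y
  l_star x _ := h.l_star x
  l_norm x _ := h.l_norm x
  r_add := h.r_add
  r_smul := h.r_smul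
  r_mul x _ y _ := h.r_mul x y
  r_star x _ := h.r_star x
  r_norm x _ := h.r_norm x
  comm x _ y _ := h.comm x y

end

end SFinaux

open SFinaux

theorem prove_S_fin (h1 : S_onef) : S_fin := by
  intro H _ _ _ S κ _ _ _ b l₀ r₀ th hmin M P C hP z hz hNA k Ω hΩ hΩ1 hst L _ _ _ l r w hbi hlr hw
    ι _ x hx
  obtain ⟨c, hc0, hc⟩ := h1 H S κ b l₀ r₀ th hmin M P C hP z hz hNA k Ω hΩ hst
  have hzs : star z = z := hz.1.1
  have hstar : ∀ a ∈ Cnr M z, star a ∈ Cnr M z := by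
    rintro a ⟨ha, hza, haz⟩
    refine ⟨star_mem ha, ?_, ?_⟩
    · have := congrArg star haz
      rwa [star_mul, hzs] at this
    · have := congrArg star hza
      rwa [star_mul, hzs] at this
  have hmul : ∀ a ∈ Cnr M z, ∀ b ∈ Cnr M z, a * b ∈ Cnr M z := by
    rintro a ⟨ha, hza, haz⟩ b ⟨hb, hzb, hbz⟩
    exact ⟨mul_mem ha hb, by rw [← mul_assoc, hza], by rw [mul_assoc, hbz]⟩
  have hbi0 := minBi hmin (Cnr M z)
  apply pow_trick _ _ (2 * c) (norm_nonneg _) (norm_nonneg _)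
  intro m
  obtain ⟨J, hJ, y, hy, e1, e2⟩ := words hbi hbi0 hstar hmul x hx m
  refine (cs (TT l r x) w hw m).trans ?_
  rw [← e1]
  -- the bound by the nearly tracial functional
  have b1 : (⟪w, TT l r y w⟫_ℂ).re ≤ ∑ i, 2 * ‖dg k (y i) Ω‖ ^ 2 := by
    have h2 : ⟪w, TT l r y w⟫_ℂ = ∑ i, ⟪l (star (y i)) w, r (y i) w⟫_ℂ := by
      unfold TT
      rw [_root_.sum_apply, inner_sum]
      apply Finset.sum_congr rfl
      intro i _
      rw [hbi.l_star _ (hy i), ContinuousLinearMap.star_eq_adjoint,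
        ContinuousLinearMap.adjoint_inner_left]
      rfl
    rw [h2, Complex.re_sum]
    apply Finset.sum_le_sum
    intro i _
    refine (Complex.re_le_norm _).trans ((norm_inner_le_norm _ _).trans ?_)
    rw [(hlr _ (hstar _ (hy i))).1, (hlr _ (hy i)).2]
    have h3 := hst (y i) (hy i).1 (hy i).2.1
    nlinarith [sq_nonneg (‖dg k (star (y i)) Ω‖ - ‖dg k (y i) Ω‖), sq_nonneg ‖dg k (y i) Ω‖]
  have b2 := hc J y hy
  rw [← Finset.mul_sum] at b1
  have b3 : ‖TT l₀ r₀ y‖ ≤ ‖TT l₀ r₀ x‖ ^ (2 ^ (m + 1)) := by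
    rw [e2]
    refine (norm_pow_le' _ (by positivity)).trans ?_
    rw [CStarRing.norm_star_mul_self, ← sq, ← pow_mul, pow_succ 2 m, mul_comm (2 ^ m) 2]
  calc (⟪w, TT l r y w⟫_ℂ).re ≤ 2 * ∑ i, ‖dg k (y i) Ω‖ ^ 2 := b1
    _ ≤ 2 * (c * ‖TT l₀ r₀ y‖) := by linarith
    _ ≤ 2 * (c * ‖TT l₀ r₀ x‖ ^ (2 ^ (m + 1))) := by
        have := mul_le_mul_of_nonneg_left b3 hc0
        linarith
    _ = _ := by ring

end H68R2.BP
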