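import Mathlib
import Pool.Agent.H68R2.BP.Props2

open scoped ComplexOrder InnerProductSpace ComplexConjugate Topology
open Finset Filter

noncomputable section

namespace H68R2.BP

open H759R2.Kad H744R2.KZ

namespace STraux

variable {H : Type} [NormedAddCommGroup H] [InnerProductSpace ℂ H] [CompleteSpace H]

theorem sq (a : H →L[ℂ] H) (v : H) : ‖a v‖ ^ 2 = (⟪v, (star a * a) v⟫_ℂ).re := by
  have h := ContinuousLinearMap.apply_norm_sq_eq_inner_adjoint_right a v
  rw [ContinuousLinearMap.star_eq_adjoint]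
  exact h

/-- the quadratic functional -/
def nu (k : ℕ) (Ω : HH (Fin k) H) (x : H →L[ℂ] H) : ℝ := ∑ i, ‖x (Ω i)‖ ^ 2

theorem nu_eq (k : ℕ) (Ω : HH (Fin k) H) (x : H →L[ℂ] H) : ‖dg k x Ω‖ ^ 2 = nu k Ω x := by
  rw [PiLp.norm_sq_eq_of_L2]
  unfold nu
  exact Finset.sum_congr rfl fun i _ => by rw [dg_apply]

theorem nu_star (k : ℕ) (Ω : HH (Fin k) H) (x : H →L[ℂ] H) :
    nu k Ω x = ∑ i, (⟪Ω i, (star x * x) (Ω i)⟫_ℂ).re :=
  Finset.sum_congr rfl fun i _ => sq x (Ω i)

theorem nu_congr (k : ℕ) (Ω : HH (Fin k) H) (x y : H →L[ℂ] H) (h : star x * x = star y * y) :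
    nu k Ω x = nu k Ω y := by rw [nu_star, nu_star, h]

theorem nu_smul (k : ℕ) (Ω : HH (Fin k) H) (c : ℂ) (x : H →L[ℂ] H) :
    nu k Ω (c • x) = ‖c‖ ^ 2 * nu k Ω x := by
  unfold nu
  rw [Finset.mul_sum]
  exact Finset.sum_congr rfl fun i _ => by
    rw [ContinuousLinearMap.smul_apply, norm_smul, mul_pow]

theorem nu_sum {J : Type} [Fintype J] (k : ℕ) (Ω : HH (Fin k) H) (a : J → (H →L[ℂ] H))
    (y : H →L[ℂ] H) (h : ∑ j, star (a j) * a j = star y * y) :
    ∑ j, nu k Ω (a j) = nu k Ω y := by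
  rw [nu_star, ← h]
  simp_rw [nu_star]
  rw [Finset.sum_comm]
  apply Finset.sum_congr rfl
  intro i _
  rw [ContinuousLinearMap.sum_apply, inner_sum, Complex.re_sum]

theorem nu_nonneg (k : ℕ) (Ω : HH (Fin k) H) (x : H →L[ℂ] H) : 0 ≤ nu k Ω x :=
  Finset.sum_nonneg fun i _ => by positivity

theorem col_bound {ι : Type} [Fintype ι] (k : ℕ) (Ω : HH (Fin k) H) (u : ι → (H →L[ℂ] H))
    (e : H →L[ℂ] H) (hu : ∀ i, u i * e = u i) :
    ∑ i, nu k Ω (u i) ≤ colN u * nu k Ω e := by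
  unfold nu colN
  rw [Finset.sum_comm, Finset.mul_sum]
  apply Finset.sum_le_sum
  intro j _
  have h1 : ∑ i, ‖u i (Ω j)‖ ^ 2 = (⟪e (Ω j), (∑ i, star (u i) * u i) (e (Ω j))⟫_ℂ).re := by
    rw [ContinuousLinearMap.sum_apply, inner_sum, Complex.re_sum]
    apply Finset.sum_congr rfl
    intro i _
    rw [← sq]
    have : u i (e (Ω j)) = u i (Ω j) := by
      rw [← ContinuousLinearMap.mul_apply, hu i]
    rw [this]
  rw [h1]
  calc _ ≤ ‖⟪e (Ω j), (∑ i, star (u i) * u i) (e (Ω j))⟫_ℂ‖ := Complex.re_le_norm _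
    _ ≤ ‖e (Ω j)‖ * ‖(∑ i, star (u i) * u i) (e (Ω j))‖ := norm_inner_le_norm _ _
    _ ≤ ‖e (Ω j)‖ * (‖∑ i, star (u i) * u i‖ * ‖e (Ω j)‖) :=
        mul_le_mul_of_nonneg_left (ContinuousLinearMap.le_opNorm _ _) (norm_nonneg _)
    _ = _ := by ring

end STraux

open STraux

theorem prove_S_tr : S_tr := by
  intro H _ _ _ M z hz k Ω hΩ hst n e heM hMU hsum i₀
  have hn : 0 < n := i₀.pos
  have hn' : (0 : ℝ) < n := by exact_mod_cast hn
  have hzs : star z = z := hz.1.1
  have hzz : z * z = z := hz.1.2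
  have hzM : z ∈ M := hz.2.1
  have hze : ∀ i j, z * e i j = e i j := by
    intro i j
    rw [← hsum, Finset.sum_mul]
    simp [hMU.mul]
  have hez : ∀ i j, e i j * z = e i j := by
    intro i j
    rw [← hsum, Finset.mul_sum]
    simp [hMU.mul]
  have hee : ∀ i j, star (e i j) * e i j = e j j := by
    intro i j
    rw [hMU.adj, hMU.mul]
    simp
  have hst' : ∀ x ∈ M, z * x = x → nu k Ω (star x) ≤ 2 * nu k Ω x := by
    intro x hx hzx
    have := hst x hx hzx
    rwa [nu_eq, nu_eq] at this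
  have hzΩ : nu k Ω z = ‖Ω‖ ^ 2 := by rw [← nu_eq, hΩ]
  -- sums over the matrix units
  have hsumU : ∀ (a : H →L[ℂ] H), z * a = a → ∀ i : Fin n,
      ∑ j, nu k Ω (e i j * a) = nu k Ω a := by
    intro a ha i
    apply nu_sum
    have : ∀ j, star (e i j * a) * (e i j * a) = star a * (e j j * a) := by
      intro j
      rw [star_mul, mul_assoc, ← mul_assoc (star (e i j)), hee]
    simp_rw [this]
    rw [← Finset.mul_sum, ← Finset.sum_mul, hsum, ha]
  simp_rw [nu_eq]
  refine ⟨?_, ?_, ?_⟩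
  · have h1 : ∀ j, nu k Ω (e i₀ i₀) ≤ 2 * nu k Ω (e j j) := by
      intro j
      have a1 : nu k Ω (e i₀ i₀) = nu k Ω (e j i₀) := nu_congr _ _ _ _ (by rw [hee, hee])
      have a2 : nu k Ω (e i₀ j) = nu k Ω (e j j) := nu_congr _ _ _ _ (by rw [hee, hee])
      have a3 := hst' (e i₀ j) (heM _ _) (hze _ _)
      rw [hMU.adj, ← a1, a2] at a3
      exact a3
    have h2 := Finset.sum_le_sum (s := univ) fun j (_ : j ∈ univ) => h1 j
    rw [Finset.sum_const, Finset.card_univ, Fintype.card_fin, nsmul_eq_mul, ← Finset.mul_sum] at h2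
    have h3 : ∑ j, nu k Ω (e j j) = nu k Ω z := by
      apply nu_sum
      simp_rw [hee]
      rw [hsum, hzs, hzz]
    rwa [h3, hzΩ] at h2
  · intro ι _ x hx
    have hc : ‖((((√(n : ℝ))⁻¹ : ℝ) : ℂ))‖ ^ 2 = 1 / n := by
      rw [Complex.norm_real, Real.norm_eq_abs, sq_abs, inv_pow, Real.sq_sqrt hn'.le, one_div]
    simp_rw [nu_smul, hc]
    rw [← Finset.mul_sum]
    have e1 : ∑ t : ι × Fin n × Fin n, nu k Ω (e i₀ t.2.1 * x t.1 * e t.2.2 i₀) =
        ∑ i, ∑ j, nu k Ω (x i * e j i₀) := by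
      rw [Fintype.sum_prod_type]
      apply Finset.sum_congr rfl
      intro i _
      rw [Fintype.sum_prod_type, Finset.sum_comm]
      apply Finset.sum_congr rfl
      intro j _
      simp_rw [mul_assoc]
      exact hsumU (x i * e j i₀) (by rw [← mul_assoc, (hx i).2.1]) i₀
    rw [e1]
    have e2 : 4 * (n : ℝ) * (1 / n * ∑ i, ∑ j, nu k Ω (x i * e j i₀)) =
        ∑ i, 4 * ∑ j, nu k Ω (x i * e j i₀) := by
      rw [← Finset.mul_sum]
      field_simp
    rw [e2]
    apply Finset.sum_le_sum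
    intro i _
    obtain ⟨hxM, hzx, hxz⟩ := hx i
    have hzxs : z * star (x i) = star (x i) := by
      have := congrArg star hxz
      rwa [star_mul, hzs] at this
    have b1 := hst' (star (x i)) (star_mem hxM) hzxs
    rw [star_star] at b1
    have b2 := hsumU (star (x i)) hzxs i₀
    have b3 : ∀ j, nu k Ω (e i₀ j * star (x i)) ≤ 2 * nu k Ω (x i * e j i₀) := by
      intro j
      have := hst' (x i * e j i₀) (mul_mem hxM (heM _ _)) (by rw [← mul_assoc, hzx])
      rwa [star_mul, hMU.adj] at this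
    have b4 := Finset.sum_le_sum (s := univ) fun j (_ : j ∈ univ) => b3 j
    rw [b2, ← Finset.mul_sum] at b4
    linarith
  · intro ι _ u hu
    have hc : ∀ i, u i * e i₀ i₀ = u i := fun i => (hu i).2.2
    refine ⟨col_bound k Ω u _ hc, ?_⟩
    have hzu : ∀ i, z * star (u i) = star (u i) := by
      intro i
      have h1 : u i * z = u i := by
        rw [← hc i, mul_assoc, hez]
      have := congrArg star h1
      rwa [star_mul, hzs] at this
    have h1 : ∀ i, nu k Ω (u i) ≤ 2 * nu k Ω (star (u i)) := by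
      intro i
      have := hst' (star (u i)) (star_mem (hu i).1) (hzu i)
      rwa [star_star] at this
    have h2 := Finset.sum_le_sum (s := univ) fun i (_ : i ∈ univ) => h1 i
    rw [← Finset.mul_sum] at h2
    have h3 := col_bound k Ω (fun i => star (u i)) (e i₀ i₀) (by
      intro i
      have := congrArg star (hu i).2.1
      rwa [star_mul, hMU.adj] at this)
    have h4 : colN (fun i => star (u i)) = rowN u := by
      unfold colN rowN
      simp
    rw [h4] at h3
    calc _ ≤ _ := h2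
      _ ≤ 2 * (rowN u * nu k Ω (e i₀ i₀)) := mul_le_mul_of_nonneg_left h3 (by norm_num)
      _ = _ := by ring

end H68R2.BP
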