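import Mathlib
import Pool.Agent.H68R2.BP.Props2

open scoped ComplexOrder InnerProductSpace ComplexConjugate Topology
open Finset Filter

noncomputable section

namespace H68R2.BP

open H759R2.Kad H744R2.KZ

set_option linter.unusedSectionVars false

namespace TIdaux

variable {H : Type} [NormedAddCommGroup H] [InnerProductSpace ℂ H] [CompleteSpace H]

theorem stl (A : H →L[ℂ] H) (u v : H) : ⟪star A u, v⟫_ℂ = ⟪u, A v⟫_ℂ := by
  rw [ContinuousLinearMap.star_eq_adjoint, ContinuousLinearMap.adjoint_inner_left]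

theorem str (A : H →L[ℂ] H) (u v : H) : ⟪u, star A v⟫_ℂ = ⟪A u, v⟫_ℂ := by
  rw [ContinuousLinearMap.star_eq_adjoint, ContinuousLinearMap.adjoint_inner_right]

theorem sa (A : H →L[ℂ] H) (h : star A = A) (u v : H) : ⟪A u, v⟫_ℂ = ⟪u, A v⟫_ℂ := by
  conv_lhs => rw [← h]
  exact stl A u v

theorem Cm_add {N : Set (H →L[ℂ] H)} {a b : H →L[ℂ] H} (ha : a ∈ Cm N) (hb : b ∈ Cm N) :
    a + b ∈ Cm N := fun c hc => by rw [add_mul, mul_add, ha c hc, hb c hc]

theorem Cm_smul {N : Set (H →L[ℂ] H)} {a : H →L[ℂ] H} (r : ℂ) (ha : a ∈ Cm N) :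
    r • a ∈ Cm N := fun c hc => by rw [smul_mul_assoc, mul_smul_comm, ha c hc]

theorem Cm_mul {N : Set (H →L[ℂ] H)} {a b : H →L[ℂ] H} (ha : a ∈ Cm N) (hb : b ∈ Cm N) :
    a * b ∈ Cm N := fun c hc => by
  rw [mul_assoc, hb c hc, ← mul_assoc, ha c hc, mul_assoc]

theorem Cm_star {N : Set (H →L[ℂ] H)} (hN : ∀ a ∈ N, star a ∈ N) {a : H →L[ℂ] H}
    (ha : a ∈ Cm N) : star a ∈ Cm N := fun c hc => by
  have h := congrArg star (ha (star c) (hN c hc))
  rw [star_mul, star_mul, star_star] at h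
  exact h.symm

/-- decomposition into self-adjoint parts -/
theorem decomp (a : H →L[ℂ] H) : ∃ p q : H →L[ℂ] H, star p = p ∧ star q = q ∧
    a = p + Complex.I • q ∧ star a = p - Complex.I • q ∧
    p = (1 / 2 : ℂ) • (a + star a) ∧ q = (-(Complex.I / 2) : ℂ) • (a + (-1 : ℂ) • star a) := by
  refine ⟨(1 / 2 : ℂ) • (a + star a), (-(Complex.I / 2) : ℂ) • (a + (-1 : ℂ) • star a), ?_, ?_,
    ?_, ?_, rfl, rfl⟩
  · rw [star_smul, star_add, star_star, add_comm]
    congr 1
    simp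
  · rw [star_smul, star_add, star_smul, star_star]
    have h1 : star (-(Complex.I / 2) : ℂ) = Complex.I / 2 := by simp; ring
    have h2 : star (-1 : ℂ) = -1 := by simp
    rw [h1, h2]
    module
  · rw [smul_smul]
    have : Complex.I * -(Complex.I / 2) = 1 / 2 := by
      have := Complex.I_mul_I
      linear_combination -(1 / 2 : ℂ) * this
    rw [this]
    module
  · rw [smul_smul]
    have : Complex.I * -(Complex.I / 2) = 1 / 2 := by
      have := Complex.I_mul_I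
      linear_combination -(1 / 2 : ℂ) * this
    rw [this]
    module

end TIdaux

open TIdaux

theorem prove_T_id (h1 : T_rn) (h2 : T_map) : T_id := by
  intro H _ _ _ M N Ω hCS R T J hT a' ha' ha's ha'0 ha'1 lam hlam
  obtain ⟨x, hxM, hxs, hx⟩ := h1 H M N Ω hCS a' ha' ha's ha'0 ha'1 lam hlam
  have hmap := h2 H M N Ω hCS R T J hT
  refine ⟨x, hxM, ?_⟩
  have hRs := hT.rop.R_sa
  have hTs := hT.rop.T_sa
  have MC : ∀ a, a ∈ M ↔ a ∈ Cm N := fun a => by rw [← hCS.cM]
  have NC : ∀ a, a ∈ N ↔ a ∈ Cm M := fun a => by rw [← hCS.cN]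
  have stN : ∀ b ∈ N, star b ∈ N := fun b hb => by
    rw [NC] at hb ⊢
    exact Cm_star hCS.stM hb
  have stM := hCS.stM
  -- the conjugation and the inner product
  have Jl : ∀ u v : H, ⟪J u, v⟫_ℂ = ⟪J v, u⟫_ℂ := fun u v => by
    conv_lhs => rw [← hT.inv v]
    rw [hT.inner]
  have Jr : ∀ u v : H, ⟪u, J v⟫_ℂ = ⟪v, J u⟫_ℂ := fun u v => by
    conv_lhs => rw [← hT.inv u]
    rw [hT.inner]
  -- fact (a)
  have facta : ∀ m ∈ M, (2 : ℂ) • (m Ω) - R (m Ω) = J (T (star m Ω)) := by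
    intro m hm
    obtain ⟨p, q, hp, hq, e1, e2, e3, e4⟩ := decomp m
    have hpM : p ∈ M := by
      rw [e3, MC]
      exact Cm_smul _ (Cm_add ((MC m).1 hm) ((MC _).1 (stM m hm)))
    have hqM : q ∈ M := by
      rw [e4, MC]
      exact Cm_smul _ (Cm_add ((MC m).1 hm) (Cm_smul _ ((MC _).1 (stM m hm))))
    have kp := hT.k (p Ω) (subset_closure ⟨p, hpM, hp, rfl⟩)
    have kq := hT.k (q Ω) (subset_closure ⟨q, hqM, hq, rfl⟩)
    have e5 : m Ω = p Ω + Complex.I • q Ω := by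
      conv_lhs => rw [e1]
      rfl
    have e6 : star m Ω = p Ω + (-Complex.I) • q Ω := by
      rw [e2, neg_smul, ← sub_eq_add_neg]
      rfl
    rw [e5, e6, map_add, map_add, map_smul, map_smul, hT.add, hT.smul, ← kp, ← kq]
    have : conj (-Complex.I) = Complex.I := by simp
    rw [this]
    module
  -- fact (b)
  have factb : ∀ b ∈ N, R (b Ω) = J (T (star b Ω)) := by
    intro m hm
    obtain ⟨p, q, hp, hq, e1, e2, e3, e4⟩ := decomp m
    have hpM : p ∈ N := by
      rw [e3, NC]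
      exact Cm_smul _ (Cm_add ((NC m).1 hm) ((NC _).1 (stN m hm)))
    have hqM : q ∈ N := by
      rw [e4, NC]
      exact Cm_smul _ (Cm_add ((NC m).1 hm) (Cm_smul _ ((NC _).1 (stN m hm))))
    have kp := hT.k' (p Ω) (subset_closure ⟨p, hpM, hp, rfl⟩)
    have kq := hT.k' (q Ω) (subset_closure ⟨q, hqM, hq, rfl⟩)
    have e5 : m Ω = p Ω + Complex.I • q Ω := by
      conv_lhs => rw [e1]
      rfl
    have e6 : star m Ω = p Ω + (-Complex.I) • q Ω := by
      rw [e2, neg_smul, ← sub_eq_add_neg]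
      rfl
    rw [e5, e6, map_add, map_add, map_smul, map_smul, hT.add, hT.smul, ← kp, ← kq]
    have : conj (-Complex.I) = Complex.I := by simp
    rw [this]
  -- equation (1)
  have eq1 : ∀ z ∈ M, ∀ y ∈ M, ⟪z Ω, a' (y Ω)⟫_ℂ =
      lam * ⟪z (x Ω), y Ω⟫_ℂ + conj lam * ⟪z Ω, y (x Ω)⟫_ℂ := by
    intro z hz y hy
    have h := hx (star z * y) (by
      rw [MC]
      exact Cm_mul ((MC _).1 (stM z hz)) ((MC y).1 hy))
    have c1 : (star z * y) (a' Ω) = star z (a' (y Ω)) := by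
      have : y (a' Ω) = a' (y Ω) := by
        have := (NC a').1 ha' y hy
        exact (congrArg (fun A : H →L[ℂ] H => A Ω) this).symm
      change star z (y (a' Ω)) = _
      rw [this]
    rw [c1, str] at h
    rw [h]
    congr 1
    · congr 1
      change ⟪Ω, x (star z (y Ω))⟫_ℂ = _
      rw [← sa x hxs, str]
    · congr 1
      change ⟪Ω, star z (y (x Ω))⟫_ℂ = _
      rw [str]
  -- the operator `W`
  set Q : H →L[ℂ] H := (2 : ℂ) • 1 - R with hQ
  have hQs : star Q = Q := by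
    rw [hQ, star_sub, star_smul, star_one, hRs]
    congr 1
    simp
  have hQa : ∀ v, Q v = (2 : ℂ) • v - R v := fun v => by
    rw [hQ]
    rfl
  set W : H →L[ℂ] H := lam • (Q * x * R) + conj lam • (R * x * Q) with hW
  have hWs : star W = W := by
    rw [hW, star_add, star_smul, star_smul, star_mul, star_mul, star_mul, star_mul, hQs, hRs, hxs,
      add_comm, ← mul_assoc, ← mul_assoc]
    congr 2
    simp
  -- the key identity
  have key : ∀ b ∈ N, ∀ c ∈ N, ⟪b Ω, T (J (a' (J (T (c Ω)))))⟫_ℂ = ⟪b Ω, W (c Ω)⟫_ℂ := by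
    intro b0 hb0 c0 hc0
    obtain ⟨b, hb, rfl⟩ : ∃ b ∈ N, b0 = star b := ⟨star b0, stN _ hb0, (star_star _).symm⟩
    obtain ⟨c, hc, rfl⟩ : ∃ c ∈ N, c0 = star c := ⟨star c0, stN _ hc0, (star_star _).symm⟩
    obtain ⟨yb, hybM, yb1, yb2⟩ := hmap b hb
    obtain ⟨yc, hycM, yc1, yc2⟩ := hmap c hc
    have h := eq1 yc hycM yb hybM
    have l1 : ⟪yc Ω, a' (yb Ω)⟫_ℂ = ⟪star b Ω, T (J (a' (J (T (star c Ω)))))⟫_ℂ := by
      rw [yc1, yb1, factb c hc, factb b hb, ← sa a' ha's, Jr, sa T hTs]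
    have l2 : ⟪yc (x Ω), yb Ω⟫_ℂ = ⟪star b Ω, (Q * x * R) (star c Ω)⟫_ℂ := by
      have e1 : J (T (yc (x Ω))) = Q (x (R (star c Ω))) := by
        have := facta (star (yc * x)) (stM _ ((MC _).2 (Cm_mul ((MC _).1 hycM) ((MC _).1 hxM))))
        rw [star_star] at this
        rw [hQa, ← yc2]
        have e2 : (star (yc * x)) Ω = x (star yc Ω) := by
          rw [star_mul, hxs]
          rfl
        rw [e2] at this
        exact this.symm
      rw [yb1, factb b hb, Jr, sa T hTs, ← hT.JT, e1]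
      rfl
    have l3 : ⟪yc Ω, yb (x Ω)⟫_ℂ = ⟪star b Ω, (R * x * Q) (star c Ω)⟫_ℂ := by
      have e1 : J (T (yb (x Ω))) = Q (x (R (star b Ω))) := by
        have := facta (star (yb * x)) (stM _ ((MC _).2 (Cm_mul ((MC _).1 hybM) ((MC _).1 hxM))))
        rw [star_star] at this
        rw [hQa, ← yb2]
        have e2 : (star (yb * x)) Ω = x (star yb Ω) := by
          rw [star_mul, hxs]
          rfl
        rw [e2] at this
        exact this.symm
      rw [yc1, factb c hc, Jl, ← sa T hTs, ← hT.JT, e1, sa Q hQs, sa x hxs, sa R hRs]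
      rfl
    rw [l1, l2, l3] at h
    rw [h, hW]
    rw [add_apply, inner_add_right]
    congr 1
    · rw [smul_apply, inner_smul_right]
    · rw [smul_apply, inner_smul_right]
  -- symmetry of the left side
  have Xs : ∀ u v, ⟪u, T (J (a' (J (T v))))⟫_ℂ = ⟪T (J (a' (J (T u)))), v⟫_ℂ := by
    intro u v
    rw [← sa T hTs, Jr, sa a' ha's, Jl, sa T hTs]
  have onN : ∀ c ∈ N, T (J (a' (J (T (c Ω))))) = W (c Ω) := by
    intro c hc
    have := hCS.cyc' (T (J (a' (J (T (c Ω))))) - W (c Ω)) (fun b hb => by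
      rw [inner_sub_right, key b hb c hc, sub_self])
    exact sub_eq_zero.1 this
  intro ξ
  have := hCS.cyc' (T (J (a' (J (T ξ)))) - W ξ) (fun b hb => by
    rw [inner_sub_right, Xs, onN b hb, sa W hWs, sub_self])
  have h := sub_eq_zero.1 this
  rw [h, hW]
  rfl

end H68R2.BP
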